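import Pool.Agent.Helper76.CP.G6

/-!
# Module G3: the typical chord end points are near the tangent line at `e`
-/

namespace Pool.Agent.Helper76.CP

open Complex MeasureTheory Set Pool.Agent.Helper51.CP Pool.Agent.Helper51.CP.CPoly

noncomputable section

theorem ker_crs (P : CPoly) (w : ℂ) (x : P.X) :
    crs (P.dr x) (w - P.gm x) = Real.pi * P.ker w x * ‖P.gm x - w‖ ^ 2 := by
  rcases eq_or_ne (P.gm x) w with h | h
  · rw [h, sub_self, norm_zero]
    simp [crs]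
  · have h0 : P.gm x - w ≠ 0 := sub_ne_zero.2 h
    have h1 : Complex.normSq (P.gm x - w) ≠ 0 := fun hh => h0 (Complex.normSq_eq_zero.1 hh)
    rw [ker, Complex.div_im, ← Complex.normSq_eq_norm_sq, crs_eq]
    field_simp
    simp only [Complex.sub_re, Complex.sub_im]
    ring

theorem st_G3 : ST_G3 := by
  intro P b0 e Bg hB hk hm hg
  have hdb : P.dr b0 ≠ 0 := sub_ne_zero.2 (P.nd b0.1 b0.1.2)
  have hde : P.dr e ≠ 0 := sub_ne_zero.2 (P.nd e.1 e.1.2)
  have hDb : 0 < ‖P.dr b0‖ := norm_pos_iff.2 hdb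
  have hDe : 0 < ‖P.dr e‖ := norm_pos_iff.2 hde
  have hne : P.gm e - P.gm b0 ≠ 0 := by
    intro h
    rw [ker, h, div_zero] at hk
    simp at hk
  have hNe : 0 < ‖P.gm e - P.gm b0‖ := norm_pos_iff.2 hne
  have hpi := Real.pi_pos
  set d : ℝ := crs (P.dr e) (P.gm b0 - P.gm e) / ‖P.dr e‖ with hd
  have hd0 : 0 < d := by
    rw [hd, ker_crs]
    positivity
  set lam : ℂ := (starRingEnd ℂ) (P.dr b0) * (((‖P.dr b0‖ * d)⁻¹ : ℝ) : ℂ) with hlam
  have hnl : ‖lam‖ = d⁻¹ := by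
    rw [hlam, norm_mul, Complex.norm_conj, Complex.norm_real, Real.norm_eq_abs,
      abs_of_pos (by positivity)]
    field_simp
  set n : ℂ := (-I * P.dr e * ((‖P.dr e‖⁻¹ : ℝ) : ℂ)) * (lam * ((d : ℝ) : ℂ)) with hn
  have hn1 : ‖n‖ = 1 := by
    rw [hn, norm_mul, norm_mul, norm_mul, norm_mul, hnl, norm_neg, Complex.norm_I,
      Complex.norm_real, Complex.norm_real, Real.norm_eq_abs, Real.norm_eq_abs,
      abs_of_pos (inv_pos.2 hDe), abs_of_pos hd0]
    field_simp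
  have hldr : lam * P.dr b0 = ((‖P.dr b0‖ / d : ℝ) : ℂ) := by
    rw [hlam]
    have : (starRingEnd ℂ) (P.dr b0) * P.dr b0 = ((‖P.dr b0‖ ^ 2 : ℝ) : ℂ) := by
      rw [mul_comm, Complex.mul_conj, Complex.normSq_eq_norm_sq]
    calc (starRingEnd ℂ) (P.dr b0) * (((‖P.dr b0‖ * d)⁻¹ : ℝ) : ℂ) * P.dr b0
        = ((starRingEnd ℂ) (P.dr b0) * P.dr b0) * (((‖P.dr b0‖ * d)⁻¹ : ℝ) : ℂ) := by ring
      _ = ((‖P.dr b0‖ ^ 2 * (‖P.dr b0‖ * d)⁻¹ : ℝ) : ℂ) := by rw [this]; push_cast; ring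
      _ = _ := by
        congr 1
        field_simp
  -- the linear functional
  have hfun : ∀ z : ℂ, ((starRingEnd ℂ) n * (lam * (z - P.gm b0))).re =
      1 - crs (P.dr e) (z - P.gm e) / ‖P.dr e‖ / d := by
    intro z
    have e1 : (starRingEnd ℂ) lam * lam = (((d⁻¹) ^ 2 : ℝ) : ℂ) := by
      rw [mul_comm, Complex.mul_conj, Complex.normSq_eq_norm_sq, hnl]
    have e2 : (starRingEnd ℂ) n * (lam * (z - P.gm b0)) =
        ((‖P.dr e‖⁻¹ * d⁻¹ : ℝ) : ℂ) * (I * ((starRingEnd ℂ) (P.dr e) * (z - P.gm b0))) := by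
      rw [hn]
      simp only [map_mul, map_neg, Complex.conj_I, Complex.conj_ofReal, neg_neg]
      calc I * (starRingEnd ℂ) (P.dr e) * ((‖P.dr e‖⁻¹ : ℝ) : ℂ) *
            ((starRingEnd ℂ) lam * ((d : ℝ) : ℂ)) * (lam * (z - P.gm b0))
          = I * (starRingEnd ℂ) (P.dr e) * ((‖P.dr e‖⁻¹ : ℝ) : ℂ) * ((d : ℝ) : ℂ) *
            ((starRingEnd ℂ) lam * lam) * (z - P.gm b0) := by ring
        _ = ((‖P.dr e‖⁻¹ * (d * d⁻¹ ^ 2) : ℝ) : ℂ) *
            (I * ((starRingEnd ℂ) (P.dr e) * (z - P.gm b0))) := by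
            rw [e1]; push_cast; ring
        _ = _ := by
            congr 2
            field_simp
    rw [e2, Complex.re_ofReal_mul, Complex.I_mul_re]
    have e3 : ((starRingEnd ℂ) (P.dr e) * (z - P.gm b0)).im = crs (P.dr e) (z - P.gm b0) := rfl
    rw [e3]
    have e4 : crs (P.dr e) (z - P.gm b0) = crs (P.dr e) (z - P.gm e) -
        crs (P.dr e) (P.gm b0 - P.gm e) := by
      simp only [crs_eq, Complex.sub_re, Complex.sub_im]
      ring
    have e5 : crs (P.dr e) (P.gm b0 - P.gm e) = d * ‖P.dr e‖ := by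
      rw [hd]; field_simp
    rw [e4, e5]
    field_simp
    ring
  refine ⟨lam, n, hn1, ?_, ?_, ?_, ?_, hB, hm, ?_⟩
  · rw [hldr, Complex.ofReal_re]
    positivity
  · rw [hldr, Complex.ofReal_im]
  · intro k hk'
    have h0 := P.left b0.1 b0.1.2 k hk'
    have e1 : (lam * (P.v k - P.gm b0)).im = (‖P.dr b0‖ * d)⁻¹ *
        crs (P.v (b0.1 + 1) - P.v b0.1) (P.v k - P.v b0.1) := by
      have : lam * (P.v k - P.gm b0) = (((‖P.dr b0‖ * d)⁻¹ : ℝ) : ℂ) *
          ((starRingEnd ℂ) (P.dr b0) * (P.v k - P.gm b0)) := by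
        rw [hlam]; ring
      rw [this, Complex.im_ofReal_mul]
      congr 1
      simp only [crs_eq, gm, dr, side, Complex.mul_re, Complex.mul_im, Complex.conj_re,
        Complex.conj_im, Complex.sub_re, Complex.sub_im, Complex.add_re, Complex.add_im,
        Complex.ofReal_re, Complex.ofReal_im]
      ring
    rw [e1]
    positivity
  · intro k hk'
    rw [hfun]
    have h0 := P.left e.1 e.1.2 k hk'
    have e1 : crs (P.dr e) (P.v k - P.gm e) = crs (P.v (e.1 + 1) - P.v e.1) (P.v k - P.v e.1) := by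
      simp only [crs_eq, gm, dr, side, Complex.mul_re, Complex.mul_im,
        Complex.sub_re, Complex.sub_im, Complex.add_re, Complex.add_im,
        Complex.ofReal_re, Complex.ofReal_im]
      ring
    rw [e1]
    have : 0 ≤ crs (P.v (e.1 + 1) - P.v e.1) (P.v k - P.v e.1) / ‖P.dr e‖ / d := by positivity
    linarith
  · intro b hb
    obtain ⟨g1, g2⟩ := hg b hb
    rw [hfun]
    have e1 : crs (P.dr e) (P.gm b - P.gm e) ≤ 4 * tt * (d * ‖P.dr e‖) := by
      have e5 : d * ‖P.dr e‖ = Real.pi * P.ker (P.gm b0) e * ‖P.gm e - P.gm b0‖ ^ 2 := by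
        rw [← ker_crs, hd]; field_simp
      rw [ker_crs, e5]
      have e6 : ‖P.gm e - P.gm b‖ ≤ 2 * ‖P.gm e - P.gm b0‖ := by
        calc ‖P.gm e - P.gm b‖ = ‖(P.gm e - P.gm b0) - (P.gm b - P.gm b0)‖ := by congr 1; ring
          _ ≤ ‖P.gm e - P.gm b0‖ + ‖P.gm b - P.gm b0‖ := norm_sub_le _ _
          _ ≤ _ := by linarith
      have e7 : ‖P.gm e - P.gm b‖ ^ 2 ≤ (2 * ‖P.gm e - P.gm b0‖) ^ 2 :=
        pow_le_pow_left₀ (norm_nonneg _) e6 2
      have htt : (0 : ℝ) < tt := by norm_num [tt]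
      calc Real.pi * P.ker (P.gm b) e * ‖P.gm e - P.gm b‖ ^ 2
          ≤ Real.pi * (tt * P.ker (P.gm b0) e) * ‖P.gm e - P.gm b‖ ^ 2 := by gcongr
        _ ≤ Real.pi * (tt * P.ker (P.gm b0) e) * (2 * ‖P.gm e - P.gm b0‖) ^ 2 := by gcongr
        _ = _ := by ring
    have e2 : crs (P.dr e) (P.gm b - P.gm e) / ‖P.dr e‖ / d ≤ 4 * tt := by
      rw [div_div, div_le_iff₀ (by positivity)]
      linarith
    linarith

end

end Pool.Agent.Helper76.CP
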