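import Pool.Agent.Helper76.CP.G6

/-!
# Module G4: from the uniform direction law to strip data
-/

namespace Pool.Agent.Helper76.CP

open Complex MeasureTheory Set Pool.Agent.Helper51.CP Pool.Agent.Helper51.CP.CPoly

noncomputable section

theorem arg_q {P : CPoly} {b0 : P.X} {lam : ℂ} (hre : 0 < (lam * P.dr b0).re)
    (him : (lam * P.dr b0).im = 0) (b : P.X) :
    (lam * (P.gm b - P.gm b0)).arg = P.ang b0 b := by
  have hdr : P.dr b0 ≠ 0 := by
    intro h
    rw [h] at hre
    simp at hre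
  have e : lam * (P.gm b - P.gm b0) =
      ((lam * P.dr b0).re : ℂ) * ((P.gm b - P.gm b0) / P.dr b0) := by
    have e1 : ((lam * P.dr b0).re : ℂ) = lam * P.dr b0 := by
      apply Complex.ext
      · simp
      · rw [him]; simp
    rw [e1]
    field_simp
  rw [ang, e, Complex.arg_real_mul _ hre]

theorem meas_ang (P : CPoly) (b : P.X) : Measurable (P.ang b) := by
  have h1 : Measurable P.gm := by
    have := P.gmB.continuous.measurable
    exact this
  unfold CPoly.ang
  exact Complex.measurable_arg.comp ((h1.sub_const _).div_const _)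

theorem law (hD : ST_DIR) (P : CPoly) (b : P.X) (S : Set ℝ) (hS : MeasurableSet S) :
    P.Pm b (P.ang b ⁻¹' S) = ENNReal.ofReal (1 / Real.pi) * volume (S ∩ Ioo 0 Real.pi) := by
  have h := hD P b
  rw [← Measure.map_apply (meas_ang P b) hS, h, Measure.smul_apply, smul_eq_mul,
    Measure.restrict_apply hS]

theorem mass (hD : ST_DIR) (P : CPoly) (b : P.X) : P.Pm b univ = 1 := by
  have := law hD P b univ MeasurableSet.univ
  rw [preimage_univ, univ_inter, Real.volume_Ioo, sub_zero,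
    ← ENNReal.ofReal_mul (by positivity)] at this
  rw [this, one_div, inv_mul_cancel₀ Real.pi_ne_zero, ENNReal.ofReal_one]

/-- a good point in every not too small angular interval -/
theorem exists_good (hD : ST_DIR) {P : CPoly} {b0 : P.X} {Bg : Set P.X} (hB : MeasurableSet Bg)
    (hm : ENNReal.ofReal (1 - 2 * tt) ≤ P.Pm b0 Bg) {u v : ℝ} (hu : 0 ≤ u) (hv : v ≤ Real.pi)
    (huv : 0.00629 ≤ v - u) : ∃ b ∈ Bg, u < P.ang b0 b ∧ P.ang b0 b < v := by
  by_contra hc
  push Not at hc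
  have hdis : Disjoint Bg (P.ang b0 ⁻¹' Ioo u v) := by
    rw [Set.disjoint_left]
    intro b hb h
    exact absurd h.2 (not_lt.2 (hc b hb h.1))
  have hI : MeasurableSet (P.ang b0 ⁻¹' Ioo u v) := meas_ang P b0 measurableSet_Ioo
  have h1 := measure_union hdis hI (μ := P.Pm b0)
  have h2 : P.Pm b0 (Bg ∪ P.ang b0 ⁻¹' Ioo u v) ≤ 1 := by
    rw [← mass hD P b0]
    exact measure_mono (subset_univ _)
  rw [h1, law hD P b0 _ measurableSet_Ioo] at h2
  have h3 : Ioo u v ∩ Ioo 0 Real.pi = Ioo u v :=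
    inter_eq_left.2 fun x hx => ⟨lt_of_le_of_lt hu hx.1, lt_of_lt_of_le hx.2 hv⟩
  rw [h3, Real.volume_Ioo, ← ENNReal.ofReal_mul (by positivity)] at h2
  have h4 : ENNReal.ofReal (1 - 2 * tt) + ENNReal.ofReal (1 / Real.pi * (v - u)) ≤ 1 :=
    (add_le_add_left hm _).trans h2
  have hpi : 0 < Real.pi := Real.pi_pos
  have hvu : 0 ≤ 1 / Real.pi * (v - u) := mul_nonneg (by positivity) (by linarith)
  rw [← ENNReal.ofReal_add (by norm_num [tt]) hvu, ← ENNReal.ofReal_one,
    ENNReal.ofReal_le_ofReal_iff (by norm_num)] at h4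
  have h5 : 1 / Real.pi * (v - u) ≤ 0.002 := by
    norm_num [tt] at h4 ⊢
    linarith
  have h6 : v - u ≤ 0.002 * Real.pi := by
    have := mul_le_mul_of_nonneg_left h5 hpi.le
    have e : Real.pi * (1 / Real.pi * (v - u)) = v - u := by field_simp
    linarith
  have := Real.pi_lt_d4
  linarith

theorem polar {P : CPoly} {b0 : P.X} {lam n : ℂ} (hre : 0 < (lam * P.dr b0).re)
    (him : (lam * P.dr b0).im = 0) (b : P.X)
    (h : 1 - 4 * tt ≤ ((starRingEnd ℂ) n * (lam * (P.gm b - P.gm b0))).re) :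
    ∃ r : ℝ, 0 < r ∧ (lam * (P.gm b - P.gm b0)).re = r * Real.cos (P.ang b0 b) ∧
      (lam * (P.gm b - P.gm b0)).im = r * Real.sin (P.ang b0 b) ∧
      0.996 ≤ r * (n.re * Real.cos (P.ang b0 b) + n.im * Real.sin (P.ang b0 b)) := by
  have harg := arg_q hre him b
  set q := lam * (P.gm b - P.gm b0) with hq
  have hqre : q.re = ‖q‖ * Real.cos (P.ang b0 b) := by
    rw [← harg]; exact (Complex.norm_mul_cos_arg q).symm
  have hqim : q.im = ‖q‖ * Real.sin (P.ang b0 b) := by
    rw [← harg]; exact (Complex.norm_mul_sin_arg q).symm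
  rw [Complex.mul_re, Complex.conj_re, Complex.conj_im] at h
  norm_num [tt] at h
  have h' : 0.996 ≤ ‖q‖ * (n.re * Real.cos (P.ang b0 b) + n.im * Real.sin (P.ang b0 b)) := by
    rw [hqre, hqim] at h
    norm_num
    linarith
  refine ⟨‖q‖, ?_, hqre, hqim, h'⟩
  rcases (norm_nonneg q).eq_or_lt with h0 | h0
  · rw [← h0] at h'
    norm_num at h'
  · exact h0

theorem st_G4 : ST_G4 := by
  intro hD P b0 lam n Bg hN
  obtain ⟨hn, hre, him, hv1, hv2, hB, hm, hg⟩ := hN
  have hn2 : n.re ^ 2 + n.im ^ 2 = 1 := by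
    have := Complex.sq_norm n
    rw [hn, Complex.normSq_apply] at this
    linarith
  have hpi := Real.pi_gt_d4
  have hpos : ∀ b ∈ Bg, 0 < n.re * Real.cos (P.ang b0 b) + n.im * Real.sin (P.ang b0 b) := by
    intro b hb
    obtain ⟨r, hr, -, -, h⟩ := polar hre him b (hg b hb)
    exact (mul_pos_iff_of_pos_left hr).1 (by linarith)
  -- the imaginary part is positive
  have hnim : 0 < n.im := by
    by_contra hc
    push Not at hc
    rcases le_total 0 n.re with h0 | h0
    · obtain ⟨b, hb, h1, h2⟩ := exists_good hD hB hm (u := Real.pi / 2) (v := Real.pi)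
        (by positivity) le_rfl (by linarith)
      have hs := Real.sin_nonneg_of_nonneg_of_le_pi (x := P.ang b0 b) (by linarith) h2.le
      have hcs := Real.cos_nonpos_of_pi_div_two_le_of_le (x := P.ang b0 b) h1.le (by linarith)
      have := hpos b hb
      have e1 := mul_nonpos_of_nonneg_of_nonpos h0 hcs
      have e2 := mul_nonpos_of_nonpos_of_nonneg hc hs
      linarith
    · obtain ⟨b, hb, h1, h2⟩ := exists_good hD hB hm (u := 0) (v := Real.pi / 2)
        le_rfl (by linarith) (by linarith)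
      have hs := Real.sin_nonneg_of_nonneg_of_le_pi (x := P.ang b0 b) h1.le (by linarith)
      have hcs := Real.cos_nonneg_of_neg_pi_div_two_le_of_le (x := P.ang b0 b) (by linarith) h2.le
      have := hpos b hb
      have e1 := mul_nonpos_of_nonpos_of_nonneg h0 hcs
      have e2 := mul_nonpos_of_nonpos_of_nonneg hc hs
      linarith
  have key : ∀ a δ : ℝ, 0.0063 < a → a ^ 2 + n.im ^ 2 = 1 → 0 < δ → δ < 0.0063 →
      n.im * Real.sin δ ≤ a * Real.cos δ := by
    intro a δ ha h2 h0 h1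
    have hs0 : 0 ≤ Real.sin δ := Real.sin_nonneg_of_nonneg_of_le_pi h0.le (by linarith)
    have hs1 : Real.sin δ ≤ δ := Real.sin_le h0.le
    have hc0 : 0 ≤ Real.cos δ :=
      Real.cos_nonneg_of_neg_pi_div_two_le_of_le (by linarith) (by linarith)
    have hsc := Real.sin_sq_add_cos_sq δ
    have hsa : Real.sin δ ^ 2 ≤ a ^ 2 := pow_le_pow_left₀ hs0 (by linarith) 2
    refine abs_le_of_sq_le_sq' ?_ (mul_nonneg (by linarith) hc0) |>.2
    rw [mul_pow, mul_pow]
    have e1 : n.im ^ 2 = 1 - a ^ 2 := by linarith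
    have e2 : Real.cos δ ^ 2 = 1 - Real.sin δ ^ 2 := by linarith
    rw [e1, e2]
    linarith
  have hnre : |n.re| ≤ 0.0063 := by
    rw [abs_le]
    constructor
    · by_contra hc
      push Not at hc
      obtain ⟨b, hb, h1, h2⟩ := exists_good hD hB hm (u := 0) (v := 0.0063)
        le_rfl (by linarith) (by norm_num)
      have := hpos b hb
      have k := key (-n.re) (P.ang b0 b) (by linarith) (by rw [neg_sq]; exact hn2) h1 h2
      linarith
    · by_contra hc
      push Not at hc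
      obtain ⟨b, hb, h1, h2⟩ := exists_good hD hB hm (u := Real.pi - 0.0063) (v := Real.pi)
        (by linarith) le_rfl (by norm_num)
      have := hpos b hb
      have k := key n.re (Real.pi - P.ang b0 b) (by linarith) hn2 (by linarith) (by linarith)
      rw [Real.sin_pi_sub, Real.cos_pi_sub] at k
      linarith
  have hnim2 : 0.99998 ≤ n.im := by
    by_contra hc
    push Not at hc
    have e1 : n.im ^ 2 ≤ 0.99998 ^ 2 := pow_le_pow_left₀ hnim.le hc.le 2
    have e2 : |n.re| ^ 2 ≤ 0.0063 ^ 2 := pow_le_pow_left₀ (abs_nonneg _) hnre 2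
    rw [sq_abs] at e2
    norm_num at e1 e2
    linarith
  have hnim1 : n.im ≤ 1 := by nlinarith
  refine ⟨hn, hre, him, hv1, hv2, hnre, hnim2, ?_⟩
  have hnre' := abs_le.1 hnre
  obtain ⟨b1, hb1, h1, h2⟩ := exists_good hD hB hm (u := 0) (v := 0.0095)
    le_rfl (by linarith) (by norm_num)
  obtain ⟨b2, hb2, h3, h4⟩ := exists_good hD hB hm (u := Real.pi - 0.0095) (v := Real.pi)
    (by linarith) le_rfl (by norm_num)
  -- estimates for a small angle
  have est : ∀ (δ r a : ℝ), 0 < δ → δ < 0.0095 → 0 < r → |a| ≤ 0.0063 →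
      0.996 ≤ r * (a * Real.cos δ + n.im * Real.sin δ) →
      62 ≤ r * Real.cos δ ∧ 0 ≤ r * Real.sin δ ∧ r * Real.sin δ ≤ 0.0096 * (r * Real.cos δ) := by
    intro δ r a h0 h1 hr ha h
    have hs0 : 0 ≤ Real.sin δ := Real.sin_nonneg_of_nonneg_of_le_pi h0.le (by linarith)
    have hs1 : Real.sin δ ≤ δ := Real.sin_le h0.le
    have hc0 : 1 - δ ^ 2 / 2 ≤ Real.cos δ := Real.one_sub_sq_div_two_le_cos
    have hc1 : Real.cos δ ≤ 1 := Real.cos_le_one δ
    have hd2 : δ ^ 2 ≤ 0.0095 ^ 2 := pow_le_pow_left₀ h0.le h1.le 2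
    have hc2 : 0.9999 ≤ Real.cos δ := by norm_num at hd2 ⊢; linarith
    have e1 : a * Real.cos δ ≤ 0.0063 := by
      calc a * Real.cos δ ≤ |a * Real.cos δ| := le_abs_self _
        _ = |a| * |Real.cos δ| := abs_mul _ _
        _ ≤ 0.0063 * 1 := mul_le_mul ha (Real.abs_cos_le_one _) (abs_nonneg _) (by norm_num)
        _ = 0.0063 := mul_one _
    have e2 : n.im * Real.sin δ ≤ 1 * 0.0095 :=
      mul_le_mul hnim1 (by linarith) hs0 (by norm_num)
    have e3 : 0.996 ≤ r * 0.0158 := by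
      refine h.trans (mul_le_mul_of_nonneg_left ?_ hr.le)
      norm_num at e1 e2 ⊢
      linarith
    have hr63 : 63 ≤ r := by norm_num at e3 ⊢; linarith
    refine ⟨?_, mul_nonneg hr.le hs0, ?_⟩
    · calc (62 : ℝ) ≤ 63 * 0.9999 := by norm_num
        _ ≤ r * Real.cos δ := mul_le_mul hr63 hc2 (by norm_num) hr.le
    · have : Real.sin δ ≤ 0.0096 * Real.cos δ := by norm_num at hc2 h1 ⊢; linarith
      calc r * Real.sin δ ≤ r * (0.0096 * Real.cos δ) := mul_le_mul_of_nonneg_left this hr.le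
        _ = _ := by ring
  obtain ⟨r1, hr1, p1, p2, p3⟩ := polar hre him b1 (hg b1 hb1)
  obtain ⟨r2, hr2, p4, p5, p6⟩ := polar hre him b2 (hg b2 hb2)
  obtain ⟨s1, s2, s3⟩ := est _ r1 n.re h1 h2 hr1 hnre p3
  have p6' : 0.996 ≤ r2 * (-n.re * Real.cos (Real.pi - P.ang b0 b2) +
      n.im * Real.sin (Real.pi - P.ang b0 b2)) := by
    rw [Real.sin_pi_sub, Real.cos_pi_sub]
    linarith
  obtain ⟨s4, s5, s6⟩ := est (Real.pi - P.ang b0 b2) r2 (-n.re) (by linarith) (by linarith) hr2
    (by rw [abs_neg]; exact hnre) p6'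
  rw [Real.sin_pi_sub] at s5 s6
  rw [Real.cos_pi_sub] at s4 s6
  refine ⟨lam * (P.gm b1 - P.gm b0), lam * (P.gm b2 - P.gm b0), q_mem P b0 lam b1,
    q_mem P b0 lam b2, ?_, ?_, ?_, ?_, ?_, ?_, ?_, ?_⟩
  · rw [p1]; exact s1
  · rw [p2]; exact s2
  · rw [p1, p2]; exact s3
  · rw [p4]; linarith
  · rw [p5]; exact s5
  · rw [p4, p5]; linarith
  · have := hg b1 hb1
    norm_num [tt] at this ⊢
    exact this
  · have := hg b2 hb2
    norm_num [tt] at this ⊢
    exact this

end

end Pool.Agent.Helper76.CP
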