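import Pool.Agent.Helper51.CP.Defs

/-!
# Module G6: geometric facts about the boundary points of a strip-like polygon
-/

namespace Pool.Agent.Helper76.CP

open Complex MeasureTheory Set Pool.Agent.Helper51.CP Pool.Agent.Helper51.CP.CPoly

noncomputable section

theorem crs_eq (a b : ℂ) : crs a b = a.re * b.im - a.im * b.re := by
  simp only [crs, Complex.mul_im, Complex.conj_re, Complex.conj_im]
  ring

theorem halfconv (α β c : ℝ) : Convex ℝ {w : ℂ | c ≤ α * w.re + β * w.im} := by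
  intro x hx y hy a b ha hb hab
  change c ≤ α * x.re + β * x.im at hx
  change c ≤ α * y.re + β * y.im at hy
  change c ≤ α * (a • x + b • y).re + β * (a • x + b • y).im
  simp only [Complex.add_re, Complex.add_im, Complex.real_smul, Complex.mul_re,
    Complex.mul_im, Complex.ofReal_re, Complex.ofReal_im, zero_mul, sub_zero, add_zero]
  have h1 := mul_le_mul_of_nonneg_left hx ha
  have h2 := mul_le_mul_of_nonneg_left hy hb
  have h3 : c = a * c + b * c := by rw [← add_mul, hab, one_mul]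
  rw [h3]
  linarith

/-- the polygon in the normalised coordinate -/
def HH (P : CPoly) (b0 : P.X) (lam : ℂ) : Set ℂ :=
  convexHull ℝ {z : ℂ | ∃ k ≤ P.N, z = lam * (P.v k - P.gm b0)}

theorem HH_half (P : CPoly) (b0 : P.X) (lam : ℂ) (α β c : ℝ)
    (h : ∀ k ≤ P.N, c ≤ α * (lam * (P.v k - P.gm b0)).re + β * (lam * (P.v k - P.gm b0)).im) :
    ∀ w ∈ HH P b0 lam, c ≤ α * w.re + β * w.im := by
  intro w hw
  have : HH P b0 lam ⊆ {w : ℂ | c ≤ α * w.re + β * w.im} := by
    refine convexHull_min ?_ (halfconv α β c)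
    rintro z ⟨k, hk, rfl⟩
    exact h k hk
  exact this hw

theorem HH_comb {P : CPoly} {b0 : P.X} {lam : ℂ} {z w : ℂ} (hz : z ∈ HH P b0 lam)
    (hw : w ∈ HH P b0 lam) {t : ℝ} (h0 : 0 ≤ t) (h1 : t ≤ 1) :
    (t : ℂ) * z + ((1 - t : ℝ) : ℂ) * w ∈ HH P b0 lam := by
  have := (convex_convexHull ℝ {z : ℂ | ∃ k ≤ P.N, z = lam * (P.v k - P.gm b0)}) hz hw h0
    (sub_nonneg.2 h1) (by ring)
  rw [Complex.real_smul, Complex.real_smul] at this
  exact this

theorem q_mem (P : CPoly) (b0 : P.X) (lam : ℂ) (x : P.X) :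
    lam * (P.gm x - P.gm b0) ∈ HH P b0 lam := by
  have h1 : lam * (P.v (x.1 + 1) - P.gm b0) ∈ HH P b0 lam :=
    subset_convexHull _ _ ⟨x.1 + 1, by have := x.1.2; omega, rfl⟩
  have h2 : lam * (P.v x.1 - P.gm b0) ∈ HH P b0 lam :=
    subset_convexHull _ _ ⟨x.1, by have := x.1.2; omega, rfl⟩
  have h3 := HH_comb h1 h2 (t := (x.2 : ℝ)) x.2.2.1.le x.2.2.2.le
  have : lam * (P.gm x - P.gm b0) = (((x.2 : ℝ) : ℂ)) * (lam * (P.v (x.1 + 1) - P.gm b0)) +
      ((1 - (x.2 : ℝ) : ℝ) : ℂ) * (lam * (P.v x.1 - P.gm b0)) := by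
    simp only [gm, side]
    push_cast
    ring
  rw [this]
  exact h3

theorem zero_mem (P : CPoly) (b0 : P.X) (lam : ℂ) : (0 : ℂ) ∈ HH P b0 lam := by
  have := q_mem P b0 lam b0
  simpa using this

theorem num_nonneg (P : CPoly) (b0 : P.X) (lam : ℂ) (x : P.X) : ∀ w ∈ HH P b0 lam,
    0 ≤ -(lam * P.dr x).im * (w.re - (lam * (P.gm x - P.gm b0)).re) +
      (lam * P.dr x).re * (w.im - (lam * (P.gm x - P.gm b0)).im) := by
  intro w hw
  set A := lam * P.dr x with hA
  set q := lam * (P.gm x - P.gm b0) with hq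
  have := HH_half P b0 lam (-A.im) A.re (-A.im * q.re + A.re * q.im) ?_ w hw
  · linarith
  · intro k hk
    have h0 := P.left x.1 x.1.2 k hk
    have h1 : crs A (lam * (P.v k - P.gm b0) - q) = Complex.normSq lam *
        crs (P.v (x.1 + 1) - P.v x.1) (P.v k - P.v x.1) := by
      rw [hA, hq]
      simp only [crs_eq, Complex.normSq_apply, gm, dr, side, Complex.mul_re, Complex.mul_im,
        Complex.sub_re, Complex.sub_im, Complex.add_re, Complex.add_im, Complex.ofReal_re,
        Complex.ofReal_im]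
      ring
    have h2 : 0 ≤ crs A (lam * (P.v k - P.gm b0) - q) := by
      rw [h1]
      exact mul_nonneg (Complex.normSq_nonneg _) h0
    rw [crs_eq] at h2
    simp only [Complex.sub_im, Complex.sub_re] at h2 ⊢
    linarith

/-- vertical lines near the origin meet the polygon high up and far down -/
theorem vert {P : CPoly} {b0 : P.X} {lam n : ℂ} (hS : SDat P b0 lam n) (x : ℝ) (hx : |x| ≤ 6) :
    (∃ y : ℝ, (⟨x, y⟩ : ℂ) ∈ HH P b0 lam ∧ 0.996 - 0.0063 * |x| ≤ y) ∧
    (∃ y : ℝ, (⟨x, y⟩ : ℂ) ∈ HH P b0 lam ∧ y ≤ 0.0096 * |x|) := by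
  obtain ⟨hn, -, -, -, -, hnre, hnim, z1, z2, hz1, hz2, h1a, h1b, h1c, h2a, h2b, h2c, h1d, h2d⟩ := hS
  have hx' := abs_le.1 hx
  have hnre' := abs_le.1 hnre
  have hn2 : n.re ^ 2 + n.im ^ 2 = 1 := by
    have := Complex.sq_norm n
    rw [hn, Complex.normSq_apply] at this
    nlinarith
  have hnim1 : n.im ≤ 1 := by nlinarith
  simp only [Complex.mul_re, Complex.conj_re, Complex.conj_im] at h1d h2d
  constructor
  · set t : ℝ := (x - z2.re) / (z1.re - z2.re) with ht
    have hd : 0 < z1.re - z2.re := by linarith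
    have ht0 : 0 ≤ t := div_nonneg (by linarith) hd.le
    have ht1 : t ≤ 1 := by rw [ht, div_le_one hd]; linarith
    have htx : t * (z1.re - z2.re) = x - z2.re := by rw [ht]; field_simp
    have hm := HH_comb hz1 hz2 ht0 ht1
    refine ⟨t * z1.im + (1 - t) * z2.im, ?_, ?_⟩
    · have : (⟨x, t * z1.im + (1 - t) * z2.im⟩ : ℂ) = (t : ℂ) * z1 + ((1 - t : ℝ) : ℂ) * z2 := by
        apply Complex.ext
        · simp
          linarith
        · simp
      rw [this]
      exact hm
    · set y := t * z1.im + (1 - t) * z2.im with hy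
      have h3 : 0.996 ≤ n.re * x + n.im * y := by
        have e1 := mul_le_mul_of_nonneg_left h1d ht0
        have e2 := mul_le_mul_of_nonneg_left h2d (sub_nonneg.2 ht1)
        have e3 : n.re * x + n.im * y = t * (n.re * z1.re - -n.im * z1.im) +
            (1 - t) * (n.re * z2.re - -n.im * z2.im) := by
          have : x = t * z1.re + (1 - t) * z2.re := by linarith
          rw [this, hy]
          ring
        rw [e3]
        linarith
      have h4 : n.re * x ≤ 0.0063 * |x| := by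
        calc n.re * x ≤ |n.re * x| := le_abs_self _
          _ = |n.re| * |x| := abs_mul _ _
          _ ≤ 0.0063 * |x| := by gcongr
      have h5 : 0.996 - 0.0063 * |x| ≤ n.im * y := by linarith
      have h6 : 0 < 0.996 - 0.0063 * |x| := by linarith
      have hy0 : 0 < y := by
        by_contra hc
        push Not at hc
        have : n.im * y ≤ 0 := mul_nonpos_of_nonneg_of_nonpos (by linarith) hc
        linarith
      have h7 : n.im * y ≤ 1 * y := mul_le_mul_of_nonneg_right hnim1 hy0.le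
      linarith
  · rcases le_total 0 x with h0 | h0
    · set t : ℝ := x / z1.re with ht
      have hd : 0 < z1.re := by linarith
      have ht0 : 0 ≤ t := div_nonneg h0 hd.le
      have ht1 : t ≤ 1 := by rw [ht, div_le_one hd]; linarith
      have htx : t * z1.re = x := by rw [ht]; field_simp
      have hm := HH_comb hz1 (zero_mem P b0 lam) ht0 ht1
      refine ⟨t * z1.im, ?_, ?_⟩
      · have : (⟨x, t * z1.im⟩ : ℂ) = (t : ℂ) * z1 + ((1 - t : ℝ) : ℂ) * 0 := by
          apply Complex.ext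
          · simp [htx]
          · simp
        rw [this]
        exact hm
      · rw [abs_of_nonneg h0]
        have := mul_le_mul_of_nonneg_left h1c ht0
        calc t * z1.im ≤ t * (0.0096 * z1.re) := this
          _ = 0.0096 * (t * z1.re) := by ring
          _ = 0.0096 * x := by rw [htx]
    · set t : ℝ := x / z2.re with ht
      have hd : z2.re < 0 := by linarith
      have ht0 : 0 ≤ t := div_nonneg_of_nonpos h0 hd.le
      have htx : t * z2.re = x := div_mul_cancel₀ x hd.ne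
      have ht1 : t ≤ 1 := by
        rw [ht, div_le_one_of_neg hd]; linarith
      have hm := HH_comb hz2 (zero_mem P b0 lam) ht0 ht1
      refine ⟨t * z2.im, ?_, ?_⟩
      · have : (⟨x, t * z2.im⟩ : ℂ) = (t : ℂ) * z2 + ((1 - t : ℝ) : ℂ) * 0 := by
          apply Complex.ext
          · simp [htx]
          · simp
        rw [this]
        exact hm
      · rw [abs_of_nonpos h0]
        have := mul_le_mul_of_nonneg_left h2c ht0
        calc t * z2.im ≤ t * (0.0096 * -z2.re) := this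
          _ = 0.0096 * (-(t * z2.re)) := by ring
          _ = 0.0096 * -x := by rw [htx]

/-- the bounds on the polygon -/
theorem HH_bounds {P : CPoly} {b0 : P.X} {lam n : ℂ} (hS : SDat P b0 lam n) :
    ∀ w ∈ HH P b0 lam, 0 ≤ w.im ∧ w.im ≤ 1.0001 + 0.0064 * |w.re| := by
  obtain ⟨hn, -, -, hv1, hv2, hnre, hnim, -⟩ := hS
  intro w hw
  have h1 := HH_half P b0 lam 0 1 0 (fun k hk => by have := hv1 k hk; linarith) w hw
  have h2 := HH_half P b0 lam (-n.re) (-n.im) (-1) (fun k hk => by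
    have := hv2 k hk
    rw [Complex.mul_re, Complex.conj_re, Complex.conj_im] at this
    linarith) w hw
  have hi : 0 ≤ w.im := by linarith
  refine ⟨hi, ?_⟩
  have h4 : -n.re * w.re ≤ 0.0063 * |w.re| := by
    calc -n.re * w.re ≤ |-n.re * w.re| := le_abs_self _
      _ = |n.re| * |w.re| := by rw [abs_mul, abs_neg]
      _ ≤ 0.0063 * |w.re| := by gcongr
  have h5 : 0.99998 * w.im ≤ n.im * w.im := mul_le_mul_of_nonneg_right hnim hi
  have h6 : 0.99998 * w.im ≤ 1 + 0.0063 * |w.re| := by linarith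
  have h7 := abs_nonneg w.re
  linarith

theorem lam_ne {P : CPoly} {b0 : P.X} {lam n : ℂ} (hS : SDat P b0 lam n) : lam ≠ 0 := by
  rintro rfl
  have := hS.2.1
  simp at this

/-- unit inner normal -/
theorem normal {P : CPoly} {b0 : P.X} {lam : ℂ} (hl : lam ≠ 0) (x : P.X) :
    ∃ mx my : ℝ, mx ^ 2 + my ^ 2 = 1 ∧
      (∀ w : ℂ, ell P b0 lam x w = mx * (w.re - (lam * (P.gm x - P.gm b0)).re) +
        my * (w.im - (lam * (P.gm x - P.gm b0)).im)) ∧
      ∀ w ∈ HH P b0 lam, 0 ≤ ell P b0 lam x w := by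
  set A := lam * P.dr x with hA
  have hA0 : A ≠ 0 := mul_ne_zero hl (sub_ne_zero.2 (P.nd x.1 x.1.2))
  have hn : 0 < ‖A‖ := norm_pos_iff.2 hA0
  have hell : ∀ w : ℂ, ell P b0 lam x w =
      (-A.im * (w.re - (lam * (P.gm x - P.gm b0)).re) +
        A.re * (w.im - (lam * (P.gm x - P.gm b0)).im)) / ‖A‖ := by
    intro w
    rw [ell, crs_eq, ← hA, Complex.sub_im, Complex.sub_re]
    congr 1
    ring
  refine ⟨-A.im / ‖A‖, A.re / ‖A‖, ?_, ?_, ?_⟩
  · have h1 := Complex.sq_norm A
    rw [Complex.normSq_apply] at h1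
    rw [div_pow, div_pow, ← add_div, div_eq_one_iff_eq (pow_ne_zero 2 hn.ne'), h1]
    ring
  · intro w
    rw [hell]
    ring
  · intro w hw
    rw [hell]
    exact div_nonneg (num_nonneg P b0 lam x w hw) hn.le

/-- top or bottom alternative -/
theorem alt {P : CPoly} {b0 : P.X} {lam n : ℂ} (hS : SDat P b0 lam n) (x : P.X)
    (hx : |(lam * (P.gm x - P.gm b0)).re| ≤ 6) :
    ∃ mx my : ℝ, (∀ w : ℂ, ell P b0 lam x w = mx * (w.re - (lam * (P.gm x - P.gm b0)).re) +
      my * (w.im - (lam * (P.gm x - P.gm b0)).im)) ∧ |mx| ≤ 0.03 * |my| ∧ 0.9995 ≤ |my| ∧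
      ((my < 0 ∧ 0.996 - 0.0063 * |(lam * (P.gm x - P.gm b0)).re| ≤
          (lam * (P.gm x - P.gm b0)).im) ∨
        (0 < my ∧ (lam * (P.gm x - P.gm b0)).im ≤
          0.0096 * |(lam * (P.gm x - P.gm b0)).re|)) := by
  obtain ⟨mx, my, hm, hell, hnn⟩ := normal (b0 := b0) (lam_ne hS) x
  have hq := q_mem P b0 lam x
  have hqb := HH_bounds hS _ hq
  obtain ⟨⟨yT, hT, hTy⟩, ⟨yB, hB, hBy⟩⟩ := vert hS _ hx
  set q := lam * (P.gm x - P.gm b0) with hqd
  have hx' := abs_le.1 hx
  obtain ⟨-, -, -, -, -, -, -, z1, z2, hz1, hz2, h1a, h1b, h1c, h2a, h2b, h2c, -, -⟩ := hS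
  have k1 := hnn z1 hz1
  have k2 := hnn z2 hz2
  rw [hell] at k1 k2
  have kT := hnn _ hT
  have kB := hnn _ hB
  rw [hell] at kT kB
  simp only [sub_self, mul_zero, zero_add] at kT kB
  have hd1 : 56 ≤ z1.re - q.re := by linarith
  have hd2 : 56 ≤ q.re - z2.re := by linarith
  have hay1 : |z1.im - q.im| ≤ 0.03 * (z1.re - q.re) := by
    rw [abs_le]
    constructor <;> linarith
  have hay2 : |z2.im - q.im| ≤ 0.03 * (q.re - z2.re) := by
    rw [abs_le]
    constructor <;> linarith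
  have hmx : |mx| ≤ 0.03 * |my| := by
    have hy1 : my * (z1.im - q.im) ≤ |my| * (0.03 * (z1.re - q.re)) := by
      calc my * (z1.im - q.im) ≤ |my * (z1.im - q.im)| := le_abs_self _
        _ = |my| * |z1.im - q.im| := abs_mul _ _
        _ ≤ _ := by gcongr
    have hy2 : my * (z2.im - q.im) ≤ |my| * (0.03 * (q.re - z2.re)) := by
      calc my * (z2.im - q.im) ≤ |my * (z2.im - q.im)| := le_abs_self _
        _ = |my| * |z2.im - q.im| := abs_mul _ _
        _ ≤ _ := by gcongr
    have j1 : 0 ≤ (mx + 0.03 * |my|) * (z1.re - q.re) := by linarith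
    have j2 : 0 ≤ (0.03 * |my| - mx) * (q.re - z2.re) := by linarith
    have j1' : 0 ≤ mx + 0.03 * |my| := nonneg_of_mul_nonneg_left j1 (by linarith)
    have j2' : 0 ≤ 0.03 * |my| - mx := nonneg_of_mul_nonneg_left j2 (by linarith)
    rw [abs_le]
    constructor <;> linarith
  have hmy : 0.9995 ≤ |my| := by
    have e1 : |mx| ^ 2 + |my| ^ 2 = 1 := by rw [sq_abs, sq_abs]; exact hm
    have e2 : |mx| ^ 2 ≤ (0.03 * |my|) ^ 2 := pow_le_pow_left₀ (abs_nonneg _) hmx 2
    by_contra hc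
    push Not at hc
    have e3 : |my| ^ 2 ≤ 0.9995 ^ 2 := pow_le_pow_left₀ (abs_nonneg _) hc.le 2
    nlinarith
  refine ⟨mx, my, hell, hmx, hmy, ?_⟩
  have hmy0 : my ≠ 0 := by
    rintro h
    rw [h, abs_zero] at hmy
    norm_num at hmy
  rcases lt_or_gt_of_ne hmy0 with h | h
  · left
    refine ⟨h, ?_⟩
    have : yT - q.im ≤ 0 := by
      by_contra hc
      push Not at hc
      have := mul_neg_of_neg_of_pos h hc
      linarith
    linarith
  · right
    refine ⟨h, ?_⟩
    have : 0 ≤ yB - q.im := nonneg_of_mul_nonneg_right kB h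
    linarith

/-- the good point `b` -/
theorem good {P : CPoly} {b0 : P.X} {lam n : ℂ} (hS : SDat P b0 lam n) (b : P.X)
    (h1 : 0.9 ≤ P.ang b0 b) (h2 : P.ang b0 b ≤ Real.pi - 0.9) :
    |(lam * (P.gm b - P.gm b0)).re| ≤ 0.86 ∧ 0.99 ≤ (lam * (P.gm b - P.gm b0)).im ∧
      (lam * (P.gm b - P.gm b0)).im ≤ 1.006 := by
  have hq := q_mem P b0 lam b
  have hqb := HH_bounds hS _ hq
  have hre := hS.2.1
  have him := hS.2.2.1
  set q := lam * (P.gm b - P.gm b0) with hqd
  -- the argument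
  have hdr : P.dr b0 ≠ 0 := by
    intro h
    rw [h] at hre
    simp at hre
  have harg : q.arg = P.ang b0 b := by
    have e : q = ((lam * P.dr b0).re : ℂ) * ((P.gm b - P.gm b0) / P.dr b0) := by
      have e1 : ((lam * P.dr b0).re : ℂ) = lam * P.dr b0 := by
        apply Complex.ext
        · simp
        · rw [him]; simp
      rw [e1, hqd]
      field_simp
    rw [ang, e, Complex.arg_real_mul _ hre]
  have hq0 : q ≠ 0 := by
    intro h
    rw [h, Complex.arg_zero] at harg
    linarith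
  have hr : 0 < ‖q‖ := norm_pos_iff.2 hq0
  set θ := P.ang b0 b with hθ
  have hqre : q.re = ‖q‖ * Real.cos θ := by
    rw [← harg]; exact (Complex.norm_mul_cos_arg q).symm
  have hqim : q.im = ‖q‖ * Real.sin θ := by
    rw [← harg]; exact (Complex.norm_mul_sin_arg q).symm
  have hcos : |Real.cos θ| ≤ Real.cos 0.9 := by
    rw [abs_le]
    constructor
    · have := Real.cos_le_cos_of_nonneg_of_le_pi (x := θ) (y := Real.pi - 0.9) (by linarith)
        (by linarith) h2
      rw [Real.cos_pi_sub] at this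
      exact this
    · exact Real.cos_le_cos_of_nonneg_of_le_pi (by norm_num) (by linarith) h1
  have hc9 : Real.cos 0.9 ≤ 0.6292 := by
    have := Real.cos_bound (x := 0.9) (by norm_num [abs_of_pos])
    have := (abs_le.1 this).2
    norm_num at this ⊢
    linarith
  have hs9 : 0.7443 ≤ Real.sin 0.9 := by
    have := Real.sin_bound (x := 0.9) (by norm_num [abs_of_pos])
    have := (abs_le.1 this).1
    norm_num at this ⊢
    linarith
  have hpi : Real.pi > 3.14 := Real.pi_gt_d2
  have hsin : 0.7443 ≤ Real.sin θ := by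
    rcases le_total θ (Real.pi / 2) with h | h
    · exact hs9.trans (Real.sin_le_sin_of_le_of_le_pi_div_two (by linarith) h h1)
    · have := Real.sin_le_sin_of_le_of_le_pi_div_two (x := 0.9) (y := Real.pi - θ) (by linarith)
        (by linarith) (by linarith)
      rw [Real.sin_pi_sub] at this
      exact hs9.trans this
  have hxy : |q.re| ≤ 0.85 * q.im := by
    rw [hqre, hqim, abs_mul, abs_of_pos hr]
    have : |Real.cos θ| ≤ 0.85 * Real.sin θ := by linarith
    calc ‖q‖ * |Real.cos θ| ≤ ‖q‖ * (0.85 * Real.sin θ) := by gcongr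
      _ = _ := by ring
  have hxb : |q.re| ≤ 0.86 := by linarith [hqb.2]
  have hypos : 0 < q.im := by
    rw [hqim]
    exact mul_pos hr (by linarith)
  obtain ⟨mx, my, -, -, -, halt⟩ := alt hS b (by rw [← hqd]; linarith)
  rw [← hqd] at halt
  refine ⟨hxb, ?_, ?_⟩
  · rcases halt with ⟨-, h⟩ | ⟨-, h⟩
    · linarith
    · exfalso
      linarith
  · linarith [hqb.2]

/-- the point `q_b / 2` is far from all sides -/
theorem centre {P : CPoly} {b0 : P.X} {lam n : ℂ} (hS : SDat P b0 lam n) (c x : P.X)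
    (h1 : |(lam * (P.gm c - P.gm b0)).re| ≤ 0.86) (h2 : 0.99 ≤ (lam * (P.gm c - P.gm b0)).im)
    (h3 : (lam * (P.gm c - P.gm b0)).im ≤ 1.006) :
    0.47 ≤ ell P b0 lam x (lam * (P.gm c - P.gm b0) / 2) := by
  obtain ⟨mx, my, hm, hell, hnn⟩ := normal (b0 := b0) (lam_ne hS) x
  set q := lam * (P.gm c - P.gm b0) with hq
  -- corners
  have corner : ∀ dx dy : ℝ, |dx| ≤ 0.47 → |dy| ≤ 0.47 →
      (⟨q.re / 2 + dx, q.im / 2 + dy⟩ : ℂ) ∈ HH P b0 lam := by
    intro dx dy hdx hdy
    have hX : |q.re / 2 + dx| ≤ 0.9 := by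
      calc |q.re / 2 + dx| ≤ |q.re / 2| + |dx| := abs_add_le _ _
        _ = |q.re| / 2 + |dx| := by rw [abs_div, abs_of_pos (by norm_num : (0 : ℝ) < 2)]
        _ ≤ 0.9 := by linarith
    obtain ⟨⟨yT, hT, hTy⟩, ⟨yB, hB, hBy⟩⟩ := vert hS (q.re / 2 + dx) (by linarith)
    have hdy' := abs_le.1 hdy
    have hX0 := abs_nonneg (q.re / 2 + dx)
    have hTB : yB < yT := by linarith
    have l1 : yB ≤ q.im / 2 + dy := by linarith
    have l2 : q.im / 2 + dy ≤ yT := by linarith
    set t : ℝ := (q.im / 2 + dy - yB) / (yT - yB) with ht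
    have hpos : 0 < yT - yB := by linarith
    have ht0 : 0 ≤ t := div_nonneg (by linarith) hpos.le
    have ht1 : t ≤ 1 := by rw [ht, div_le_one hpos]; linarith
    have htx : t * (yT - yB) = q.im / 2 + dy - yB := div_mul_cancel₀ _ hpos.ne'
    have := HH_comb hT hB ht0 ht1
    have e : (⟨q.re / 2 + dx, q.im / 2 + dy⟩ : ℂ) = (t : ℂ) * ⟨q.re / 2 + dx, yT⟩ +
        ((1 - t : ℝ) : ℂ) * ⟨q.re / 2 + dx, yB⟩ := by
      apply Complex.ext
      · simp only [Complex.add_re, Complex.mul_re, Complex.ofReal_re, Complex.ofReal_im]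
        ring
      · simp only [Complex.add_im, Complex.mul_im, Complex.ofReal_re, Complex.ofReal_im]
        linarith
    rw [e]
    exact this
  -- choice of the corner
  have hsg : ∀ m : ℝ, ∃ d : ℝ, |d| ≤ 0.47 ∧ m * d = -(0.47 * |m|) := by
    intro m
    rcases le_total 0 m with h | h
    · exact ⟨-0.47, by rw [abs_neg, abs_of_pos (by norm_num)], by rw [abs_of_nonneg h]; ring⟩
    · exact ⟨0.47, by rw [abs_of_pos (by norm_num)], by rw [abs_of_nonpos h]; ring⟩
  obtain ⟨dx, hdx, hmx⟩ := hsg mx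
  obtain ⟨dy, hdy, hmy⟩ := hsg my
  have k := hnn _ (corner dx dy hdx hdy)
  rw [hell] at k
  simp only at k
  rw [hell]
  have hhalf : (q / 2).re = q.re / 2 ∧ (q / 2).im = q.im / 2 := by
    have : q / 2 = ((1 / 2 : ℝ) : ℂ) * q := by push_cast; ring
    rw [this, Complex.re_ofReal_mul, Complex.im_ofReal_mul]
    constructor <;> ring
  rw [hhalf.1, hhalf.2]
  have hsum : 1 ≤ |mx| + |my| := by
    have e1 : |mx| ^ 2 + |my| ^ 2 = 1 := by rw [sq_abs, sq_abs]; exact hm
    nlinarith [abs_nonneg mx, abs_nonneg my, mul_nonneg (abs_nonneg mx) (abs_nonneg my)]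
  linarith

theorem st_G6 : ST_G6 := by
  intro P b0 b lam n hS h1 h2
  obtain ⟨g1, g2, g3⟩ := good hS b h1 h2
  refine ⟨lam_ne hS, by linarith, g2, g3, ?_⟩
  intro x
  have hq := q_mem P b0 lam x
  have hqb := HH_bounds hS _ hq
  refine ⟨hqb.1, hqb.2, centre hS b x g1 g2 g3, ?_⟩
  intro hx
  obtain ⟨mx, my, hell, hmx, hmy, halt⟩ := alt hS x hx
  set q := lam * (P.gm x - P.gm b0) with hqd
  set qb := lam * (P.gm b - P.gm b0) with hqbd
  rcases halt with ⟨hneg, h⟩ | ⟨hpos, h⟩
  · left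
    refine ⟨h, ?_⟩
    rw [hell]
    simp only [Complex.zero_re, Complex.zero_im, zero_sub]
    rw [abs_of_neg hneg] at hmx hmy
    have e1 : mx * q.re ≤ 0.03 * (-my) * |q.re| := by
      calc mx * q.re ≤ |mx * q.re| := le_abs_self _
        _ = |mx| * |q.re| := abs_mul _ _
        _ ≤ _ := by gcongr
    have e2 : (-my) * (0.996 - 0.0063 * |q.re| - 0.03 * |q.re|) ≤
        (-my) * (q.im - 0.03 * |q.re|) :=
      mul_le_mul_of_nonneg_left (by linarith) (by linarith)
    have e3 : 0.9995 * (0.996 - 0.0063 * 6 - 0.03 * 6) ≤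
        (-my) * (0.996 - 0.0063 * |q.re| - 0.03 * |q.re|) := by
      have : (0.996 - 0.0063 * 6 - 0.03 * 6 : ℝ) ≤ 0.996 - 0.0063 * |q.re| - 0.03 * |q.re| := by
        linarith
      exact mul_le_mul hmy this (by norm_num) (by linarith)
    norm_num at e3
    linarith
  · right
    refine ⟨h, ?_⟩
    rw [hell]
    rw [abs_of_pos hpos] at hmx hmy
    have hxd : |qb.re - q.re| ≤ 6.9 := by
      calc |qb.re - q.re| ≤ |qb.re| + |q.re| := abs_sub _ _
        _ ≤ 6.9 := by linarith
    have e1 : -(mx * (qb.re - q.re)) ≤ 0.03 * my * 6.9 := by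
      calc -(mx * (qb.re - q.re)) ≤ |mx * (qb.re - q.re)| := neg_le_abs _
        _ = |mx| * |qb.re - q.re| := abs_mul _ _
        _ ≤ _ := by gcongr
    have hqi : q.im ≤ 0.0576 := by linarith
    have e2 : my * (0.99 - 0.0576) ≤ my * (qb.im - q.im) :=
      mul_le_mul_of_nonneg_left (by linarith) hpos.le
    linarith

end

end Pool.Agent.Helper76.CP
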